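import Pool.Agent.Q98.Block

/-!
# Blocking words for potentially partially positive words (MP_1d2ce7_al)

For every rank `r ≥ 2`, every reduced word which contains all reduced words of length two as
subwords is 3P-blocking, and such words exist.
-/

set_option autoImplicit false

namespace Pool.Agent.Results.MP_1d2ce7_al.AllPairsBlock

open FreeGroup List
open Pool.Agent.Q98.Pos Pool.Agent.Q98.Block

/-- A word is partially positive if some generator `a` occurs in its reduced form, while `a⁻¹` does
not occur. -/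
def PartiallyPositive {r : ℕ} (w : FreeGroup (Fin r)) : Prop :=
  ∃ a : Fin r, (a, true) ∈ w.toWord ∧ (a, false) ∉ w.toWord

/-- A word is 3P if it is the image of a partially positive word under an automorphism. -/
def ThreeP {r : ℕ} (w : FreeGroup (Fin r)) : Prop :=
  ∃ (φ : FreeGroup (Fin r) ≃* FreeGroup (Fin r)) (v : FreeGroup (Fin r)),
    PartiallyPositive v ∧ w = φ v

/-- `u` is 3P-blocking if it is not a subword of any cyclically reduced 3P word. -/
def Blocking {r : ℕ} (u : FreeGroup (Fin r)) : Prop :=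
  ∀ w : FreeGroup (Fin r), IsCyclicallyReduced w.toWord → ThreeP w → ¬ u.toWord <:+: w.toWord

/-- every reduced word of length two is a subword of (the reduced form of) `u` -/
def AllPairs {r : ℕ} (u : FreeGroup (Fin r)) : Prop :=
  ∀ x y : Fin r × Bool, FreeGroup.IsReduced [x, y] → [x, y] <:+: u.toWord

theorem blocking_of_allPairs {r : ℕ} (u : FreeGroup (Fin r)) (hu : AllPairs u) : Blocking u := by
  rintro w hw ⟨φ, v, ⟨a, -, hv⟩, rfl⟩ hinf
  obtain ⟨G, A, B, -, ⟨x, hx⟩, ⟨y, hy⟩, hd, -, h⟩ := turns φ a v hv _ hw (by rw [mk_toWord])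
  have hxy : x ≠ y := by
    rintro rfl
    exact Set.disjoint_left.1 hd hx hy
  have hr : FreeGroup.IsReduced [(x.1, !x.2), y] := by
    rw [FreeGroup.isReduced_cons_cons]
    refine ⟨?_, by simp⟩
    intro h1
    have : x.2 ≠ y.2 := fun h2 => hxy (Prod.ext h1 h2)
    revert this
    cases x.2 <;> cases y.2 <;> simp
  obtain ⟨P, Q, hPQ⟩ := (hu _ _ hr).trans hinf
  refine h x hx y hy 1 P Q ?_
  rw [hPQ]
  simp [rep]

theorem exists_allPairs_aux {r : ℕ} (hr : 2 ≤ r)
    (l : List ((Fin r × Bool) × (Fin r × Bool))) :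
    (∀ p ∈ l, FreeGroup.IsReduced [p.1, p.2]) →
    ∃ L : List (Fin r × Bool), L ≠ [] ∧ FreeGroup.IsReduced L ∧ ∀ p ∈ l, [p.1, p.2] <:+: L := by
  induction l with
  | nil => intro _; exact ⟨[(⟨0, by omega⟩, true)], by simp, by simp, by simp⟩
  | cons p l ih =>
    intro hp
    obtain ⟨L, hL0, hL, h⟩ := ih (fun q hq => hp q (by simp [hq]))
    obtain ⟨M, z, hz⟩ : ∃ M z, L = M ++ [z] :=
      ⟨_, _, (List.dropLast_append_getLast hL0).symm⟩
    obtain ⟨b, hb⟩ : ∃ b : Fin r, b ≠ z.1 := by
      rcases Nat.eq_zero_or_pos z.1.val with h0 | h0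
      · exact ⟨⟨1, by omega⟩, by intro h1; rw [← h1] at h0; simp at h0⟩
      · exact ⟨⟨0, by omega⟩, by intro h1; rw [← h1] at h0; simp at h0⟩
    refine ⟨L ++ [(b, p.1.2)] ++ [p.1, p.2], by simp, ?_, ?_⟩
    · rw [List.append_assoc, reduced_append]
      refine ⟨hL, ?_, ?_⟩
      · rw [List.singleton_append, FreeGroup.isReduced_cons_cons]
        exact ⟨fun _ => rfl, hp p (by simp)⟩
      · rw [hz]
        intro x hx y hy hxy
        simp only [List.getLast?_append, List.getLast?_singleton, Option.some_or,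
          Option.mem_def, Option.some.injEq] at hx
        simp only [List.singleton_append, List.head?_cons, Option.mem_def,
          Option.some.injEq] at hy
        subst hx
        subst hy
        exact absurd hxy.symm hb
    · intro q hq
      rcases List.mem_cons.1 hq with rfl | hq
      · exact ⟨L ++ [(b, q.1.2)], [], by simp⟩
      · obtain ⟨P, Q, hPQ⟩ := h q hq
        exact ⟨P, Q ++ [(b, p.1.2)] ++ [p.1, p.2], by rw [← hPQ]; simp⟩

theorem exists_allPairs {r : ℕ} (hr : 2 ≤ r) : ∃ u : FreeGroup (Fin r), AllPairs u := by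
  classical
  obtain ⟨L, -, hL, h⟩ := exists_allPairs_aux hr
    ((Finset.univ : Finset ((Fin r × Bool) × (Fin r × Bool))).toList.filter
      (fun p => FreeGroup.IsReduced [p.1, p.2])) (by
      intro p hp
      rw [List.mem_filter] at hp
      exact of_decide_eq_true hp.2)
  refine ⟨mk L, ?_⟩
  intro x y hxy
  rw [toWord_mk_red hL]
  refine h (x, y) ?_
  rw [List.mem_filter]
  exact ⟨by simp, decide_eq_true hxy⟩

/-- For every rank `r ≥ 2` there is a word containing all the reduced words of length two, and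
every such word is 3P-blocking. In particular there is a 3P-blocking word. -/
theorem result (r : ℕ) (hr : 2 ≤ r) :
    (∃ u : FreeGroup (Fin r), AllPairs u) ∧ ∀ u : FreeGroup (Fin r), AllPairs u → Blocking u :=
  ⟨exists_allPairs hr, blocking_of_allPairs⟩

end Pool.Agent.Results.MP_1d2ce7_al.AllPairsBlock
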